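import Pool.Agent.Helper98.CLTd.Radial

/-! # (F): final assembly, from eigenvalues to the failure of the inequality -/

namespace Pool.Agent.Helper50.CLTd

open MeasureTheory Set Filter Topology
open scoped ComplexConjugate ENNReal
open Pool.Agent.Helper98.CLTd

/-! ### the algebraic multiplicity is positive -/

lemma one_le_algMult {d : ℕ} {ħ : ℝ} {V : EuclideanSpace ℝ (Fin d) → ℂ} {E : ℂ} {u : L2d d}
    (hu : u ≠ 0) (h : HGraph ħ V u (E • u)) : 1 ≤ algMult ħ V E := by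
  have h1 : u ∈ genSpace ħ V E 1 := by
    refine ⟨E • u, h, ?_⟩
    rw [sub_self]
    exact Submodule.zero_mem _
  have h2 : u ∈ (⨆ k, genSpace ħ V E k : Submodule ℂ (L2d d)) :=
    (le_iSup (genSpace ħ V E) 1) h1
  have h3 : (1 : Cardinal) ≤ Module.rank ℂ (⨆ k, genSpace ħ V E k : Submodule ℂ (L2d d)) := by
    rw [Cardinal.one_le_iff_ne_zero, ne_eq, rank_zero_iff, not_subsingleton_iff_nontrivial]
    exact ⟨⟨u, h2⟩, 0, fun h => hu (congrArg Subtype.val h)⟩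
  have h4 : ((1 : ℕ) : ℕ∞) ≤ algMult ħ V E := by
    unfold algMult
    rw [Cardinal.natCast_le_toENat]
    exact_mod_cast h3
  exact_mod_cast h4

/-! ### the distance to the half line -/

lemma distPos_eq {z : ℂ} (hz : z.re ≤ 0) : distPos z = ‖z‖ := by
  have hne : {z : ℂ | 0 ≤ z.re ∧ z.im = 0}.Nonempty := ⟨0, by simp⟩
  refine le_antisymm ?_ ?_
  · have := Metric.infDist_le_dist_of_mem (x := z) (s := {z : ℂ | 0 ≤ z.re ∧ z.im = 0}) (y := 0)
      (by simp)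
    rwa [dist_zero_right] at this
  · refine (Metric.le_infDist hne).2 ?_
    rintro y ⟨hy, hy'⟩
    rw [dist_eq_norm]
    have h1 : ‖z‖ ^ 2 ≤ ‖z - y‖ ^ 2 := by
      rw [Complex.sq_norm, Complex.sq_norm, Complex.normSq_apply, Complex.normSq_apply,
        Complex.sub_re, Complex.sub_im, hy']
      nlinarith
    exact (pow_le_pow_iff_left₀ (norm_nonneg _) (norm_nonneg _) two_ne_zero).1 h1

/-! ### the potential -/

/-- a bound for the potential, independent of `N` -/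
lemma norm_Vpl_le {v0 a b : ℝ → ℂ} (x : EuclideanSpace ℝ (Fin 2)) :
    ‖Vpl v0 a b x‖ ≤ ‖v0 ‖x‖‖ + ‖a ‖x‖‖ + ‖b ‖x‖‖ := by
  have key : ∀ z : ℂ, ‖z‖ = ‖x‖ → ‖z ^ 2 / (‖x‖ : ℂ) ^ 2‖ ≤ 1 := by
    intro z hz
    rw [norm_div, norm_pow, norm_pow, hz, Complex.norm_real, norm_norm]
    exact div_self_le_one _
  have hx2 : ‖x‖ = Real.sqrt (x 0 ^ 2 + x 1 ^ 2) := by
    rw [EuclideanSpace.norm_eq]
    simp
  have h1 : ‖((x 0 : ℂ) + (x 1 : ℂ) * Complex.I)‖ = ‖x‖ := by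
    rw [Complex.norm_add_mul_I, hx2]
  have h2 : ‖((x 0 : ℂ) - (x 1 : ℂ) * Complex.I)‖ = ‖x‖ := by
    have : ((x 0 : ℂ) - (x 1 : ℂ) * Complex.I) = (x 0 : ℂ) + ((-x 1 : ℝ) : ℂ) * Complex.I := by
      push_cast; ring
    rw [this, Complex.norm_add_mul_I, hx2, neg_sq]
  unfold Vpl
  refine (norm_add_le _ _).trans (add_le_add ((norm_add_le _ _).trans (add_le_add le_rfl ?_)) ?_)
  · rw [norm_mul]
    exact mul_le_of_le_one_right (norm_nonneg _) (key _ h1)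
  · rw [norm_mul]
    exact mul_le_of_le_one_right (norm_nonneg _) (key _ h2)

lemma measurable_Vpl {v0 a b : ℝ → ℂ} (h0 : Measurable v0) (ha : Measurable a)
    (hb : Measurable b) : Measurable (Vpl v0 a b) := by
  unfold Vpl
  have e0 : Measurable (fun x : EuclideanSpace ℝ (Fin 2) => ‖x‖) := measurable_norm
  have e1 := h0.comp e0
  have e2 := ha.comp e0
  have e3 := hb.comp e0
  have e4 : Measurable (fun x : EuclideanSpace ℝ (Fin 2) =>
      (((x 0 : ℂ) + (x 1 : ℂ) * Complex.I) ^ 2 / (‖x‖ : ℂ) ^ 2)) := by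
    refine Measurable.div ?_ ?_
    · exact Continuous.measurable (by fun_prop)
    · exact Continuous.measurable (by fun_prop)
  have e5 : Measurable (fun x : EuclideanSpace ℝ (Fin 2) =>
      (((x 0 : ℂ) - (x 1 : ℂ) * Complex.I) ^ 2 / (‖x‖ : ℂ) ^ 2)) := by
    refine Measurable.div ?_ ?_
    · exact Continuous.measurable (by fun_prop)
    · exact Continuous.measurable (by fun_prop)
  exact (e1.add (e2.mul e4)).add (e3.mul e5)

lemma measurable_v0fun : Measurable v0fun := by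
  unfold v0fun
  refine Measurable.ite ?_ ?_ ?_
  · exact measurableSet_lt (by fun_prop) measurable_const
  · fun_prop
  · fun_prop

lemma v0_bound {r : ℝ} (hr : 0 ≤ r) : ‖(v0fun r : ℂ)‖ ≤ 12 / (1 + r ^ 2) := by
  rw [Complex.norm_real, Real.norm_eq_abs, v0fun, abs_of_nonneg hr]
  split_ifs with h
  · have h1 : r ^ 2 < 1 := by nlinarith
    have h2 : (4 : ℝ) ≤ 7 - 3 * r ^ 2 := by linarith
    rw [abs_div, abs_of_pos (show (0 : ℝ) < 7 - 3 * r ^ 2 by linarith),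
      div_le_div_iff₀ (by linarith) (by positivity)]
    rw [show |(-24 : ℝ)| = 24 by norm_num]
    nlinarith
  · have h1 : (1 : ℝ) ≤ r ^ 2 := by nlinarith
    rw [abs_div, abs_of_pos (show (0 : ℝ) < 4 * r ^ 2 by linarith),
      div_le_div_iff₀ (by linarith) (by positivity)]
    rw [show |(-3 : ℝ)| = 3 by norm_num]
    nlinarith

lemma a_bound {N : ℕ} (hN : 1 ≤ N) {a : ℝ → ℂ} (ha : ∀ r, ‖a r‖ ≤ 10 ^ 5 / (N : ℝ) ^ 578)
    (ha' : ∀ r, r ∉ Icc (2 : ℝ) ((N : ℝ) ^ 204) → a r = 0) (r : ℝ) :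
    ‖a r‖ ≤ 2 * 10 ^ 5 / (1 + r ^ 2) := by
  by_cases hr : r ∈ Icc (2 : ℝ) ((N : ℝ) ^ 204)
  · refine (ha r).trans ?_
    have hN' : (1 : ℝ) ≤ N := by exact_mod_cast hN
    have h1 : (1 + r ^ 2) ≤ 2 * (N : ℝ) ^ 578 := by
      have h2 : r ^ 2 ≤ ((N : ℝ) ^ 204) ^ 2 := pow_le_pow_left₀ (by linarith [hr.1]) hr.2 2
      have h3 : ((N : ℝ) ^ 204) ^ 2 ≤ (N : ℝ) ^ 578 := by
        rw [← pow_mul]
        exact pow_le_pow_right₀ hN' (by norm_num)
      have h4 : (1 : ℝ) ≤ (N : ℝ) ^ 578 := one_le_pow₀ hN'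
      linarith
    rw [div_le_div_iff₀ (by positivity) (by positivity)]
    nlinarith
  · rw [ha' r hr, norm_zero]; positivity

lemma b_bound {N : ℕ} (hN : 1 ≤ N) (r : ℝ) :
    ‖((Ico (1 : ℝ) 2).indicator (fun _ => ((1 / (N : ℝ) ^ 10 : ℝ) : ℂ))) r‖ ≤
      5 / (1 + r ^ 2) := by
  by_cases hr : r ∈ Ico (1 : ℝ) 2
  · rw [indicator_of_mem hr]
    have hN' : (1 : ℝ) ≤ N := by exact_mod_cast hN
    have h4 : (1 : ℝ) ≤ (N : ℝ) ^ 10 := one_le_pow₀ hN'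
    have h5 : ‖((1 / (N : ℝ) ^ 10 : ℝ) : ℂ)‖ ≤ 1 := by
      rw [Complex.norm_real, Real.norm_of_nonneg (by positivity), div_le_one (by positivity)]
      exact h4
    refine h5.trans ?_
    rw [le_div_iff₀ (by positivity)]
    nlinarith [hr.1, hr.2]
  · rw [indicator_of_notMem hr, norm_zero]; positivity

/-- the integral of a radial power -/
noncomputable def Kc (p : ℝ) : ℝ :=
  ∫ x : EuclideanSpace ℝ (Fin 2), (10 ^ 6 * ((1 : ℝ) + ‖x‖ ^ 2)⁻¹) ^ p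

lemma integrable_Kc {p : ℝ} (hp : 1 < p) :
    Integrable (fun x : EuclideanSpace ℝ (Fin 2) => (10 ^ 6 * ((1 : ℝ) + ‖x‖ ^ 2)⁻¹) ^ p) := by
  have h1 : ((Module.finrank ℝ (EuclideanSpace ℝ (Fin 2)) : ℕ) : ℝ) < 2 * p := by
    rw [finrank_euclideanSpace_fin]; push_cast; linarith
  have h2 := integrable_rpow_neg_one_add_norm_sq (μ := volume) h1
  have h3 := h2.const_mul ((10 ^ 6 : ℝ) ^ p)
  refine h3.congr ?_
  filter_upwards with x
  rw [Real.mul_rpow (by norm_num) (by positivity), Real.inv_rpow (by positivity),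
    ← Real.rpow_neg (by positivity)]
  congr 2
  ring

lemma V_facts {N : ℕ} (hN : 1 ≤ N) {a : ℝ → ℂ} (ham : Measurable a)
    (ha : ∀ r, ‖a r‖ ≤ 10 ^ 5 / (N : ℝ) ^ 578)
    (ha' : ∀ r, r ∉ Icc (2 : ℝ) ((N : ℝ) ^ 204) → a r = 0) {p : ℝ} (hp : 1 < p) :
    MemLp (Vpl (fun r => (v0fun r : ℂ)) a
      ((Ico (1 : ℝ) 2).indicator fun _ => ((1 / (N : ℝ) ^ 10 : ℝ) : ℂ)))
      (ENNReal.ofReal p) volume ∧
    ∫ x, ‖Vpl (fun r => (v0fun r : ℂ)) a
      ((Ico (1 : ℝ) 2).indicator fun _ => ((1 / (N : ℝ) ^ 10 : ℝ) : ℂ)) x‖ ^ p ≤ Kc p := by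
  set b : ℝ → ℂ := (Ico (1 : ℝ) 2).indicator fun _ => ((1 / (N : ℝ) ^ 10 : ℝ) : ℂ) with hb
  set V := Vpl (fun r => (v0fun r : ℂ)) a b with hV
  have hVm : Measurable V := by
    refine measurable_Vpl ?_ ham ?_
    · exact Complex.measurable_ofReal.comp measurable_v0fun
    · exact measurable_const.indicator measurableSet_Ico
  have hbd : ∀ x, ‖V x‖ ≤ 10 ^ 6 * ((1 : ℝ) + ‖x‖ ^ 2)⁻¹ := by
    intro x
    refine (norm_Vpl_le x).trans ?_
    have h1 := v0_bound (norm_nonneg x)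
    have h2 := a_bound hN ha ha' ‖x‖
    have h3 := b_bound hN ‖x‖
    rw [← hb] at h3
    have h4 : (0 : ℝ) < ((1 : ℝ) + ‖x‖ ^ 2)⁻¹ := by positivity
    rw [div_eq_mul_inv] at h1 h2 h3
    linarith
  have hp0 : 0 < p := by linarith
  have hint : Integrable (fun x => ‖V x‖ ^ p) := by
    refine (integrable_Kc hp).mono' ?_ ?_
    · exact (hVm.norm.pow_const p).aestronglyMeasurable
    · filter_upwards with x
      rw [Real.norm_of_nonneg (by positivity)]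
      exact Real.rpow_le_rpow (norm_nonneg _) (hbd x) hp0.le
  refine ⟨?_, ?_⟩
  · rw [← integrable_norm_rpow_iff hVm.aestronglyMeasurable
      (by simpa using hp0) ENNReal.ofReal_ne_top, ENNReal.toReal_ofReal hp0.le]
    exact hint
  · exact integral_mono hint (integrable_Kc hp) fun x =>
      Real.rpow_le_rpow (norm_nonneg _) (hbd x) hp0.le

/-- (F): final assembly -/
theorem not_DHK_of_eigen (γ σ' C : ℝ) (hγ : 0 < γ) (hγ2 : γ < 1 / 500)
    (H : ∃ N₀ : ℕ, ∀ N : ℕ, N₀ ≤ N → ∃ a : ℝ → ℂ, Measurable a ∧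
      (∀ r, ‖a r‖ ≤ 10 ^ 5 / (N : ℝ) ^ 578) ∧ (∀ r, r ∉ Icc (2 : ℝ) ((N : ℝ) ^ 204) → a r = 0) ∧
      ∃ S : Finset ℂ, (N : ℝ) / 100 ≤ S.card ∧ ∀ s ∈ S, 1 / (2 * (N : ℝ) ^ 202) ≤ ‖s‖ ∧ 0 < s.re ∧
        |s.im| ≤ s.re ∧ ∃ u : L2d 2, u ≠ 0 ∧
          HGraph 1 (Vpl (fun r => (v0fun r : ℂ)) a
            ((Ico (1 : ℝ) 2).indicator fun _ => ((1 / (N : ℝ) ^ 10 : ℝ) : ℂ))) u ((-s ^ 2) • u)) :
    ¬ DHK 2 γ σ' C := by
  classical
  intro hD
  obtain ⟨N₀, H⟩ := H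
  -- the lower bound tends to infinity
  set K : ℝ := |C| * Kc (1 + γ) with hK
  have hlim : Tendsto (fun N : ℕ => (N : ℝ) / 100 * (1 / (2 * (N : ℝ) ^ 202)) ^ (2 * γ))
      atTop atTop := by
    have h1 : ∀ᶠ N : ℕ in atTop, (1 / 100 * (1 / 2 : ℝ) ^ (2 * γ)) * (N : ℝ) ^ (1 - 404 * γ) =
        (N : ℝ) / 100 * (1 / (2 * (N : ℝ) ^ 202)) ^ (2 * γ) := by
      filter_upwards [eventually_ge_atTop 1] with N hN
      have hN' : (0 : ℝ) < N := by exact_mod_cast hN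
      have e1 : (1 / (2 * (N : ℝ) ^ 202)) = (1 / 2 : ℝ) * ((N : ℝ) ^ (202 : ℝ))⁻¹ := by
        rw [show ((202 : ℝ)) = ((202 : ℕ) : ℝ) by norm_num, Real.rpow_natCast]
        field_simp
      rw [e1, Real.mul_rpow (by norm_num) (by positivity), Real.inv_rpow (by positivity),
        ← Real.rpow_mul hN'.le, ← Real.rpow_neg hN'.le, Real.rpow_sub hN', Real.rpow_one]
      rw [show -((202 : ℝ) * (2 * γ)) = -(404 * γ) by ring, Real.rpow_neg hN'.le]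
      ring
    refine Tendsto.congr' h1 ?_
    refine Tendsto.const_mul_atTop (by positivity) ?_
    exact (tendsto_rpow_atTop (by linarith)).comp tendsto_natCast_atTop_atTop
  obtain ⟨N, hN, hN0, hN1⟩ := ((hlim.eventually_gt_atTop K).and
    ((eventually_ge_atTop N₀).and (eventually_ge_atTop 1))).exists
  obtain ⟨a, ham, ha, ha', S, hS, hSs⟩ := H N hN0
  set b : ℝ → ℂ := (Ico (1 : ℝ) 2).indicator fun _ => ((1 / (N : ℝ) ^ 10 : ℝ) : ℂ) with hb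
  set V := Vpl (fun r => (v0fun r : ℂ)) a b with hV
  obtain ⟨hV1, hV2⟩ := V_facts hN1 ham ha ha' (p := 1 + γ) (by linarith)
  rw [← hb, ← hV] at hV1 hV2
  have hN' : (1 : ℝ) ≤ N := by exact_mod_cast hN1
  have hp : γ + ((2 : ℕ) : ℝ) / 2 = 1 + γ := by push_cast; ring
  have h1 := hD 1 one_pos V (by rw [hp]; exact hV1)
  rw [hp] at h1
  -- upper bound
  have h2 : ENNReal.ofReal (C * 1 ^ (-((2 : ℕ) : ℝ)) * ∫ x, ‖V x‖ ^ (1 + γ)) ≤
      ENNReal.ofReal K := by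
    refine ENNReal.ofReal_le_ofReal ?_
    rw [Real.one_rpow, mul_one, hK]
    have h3 : 0 ≤ ∫ x, ‖V x‖ ^ (1 + γ) := integral_nonneg fun x => by positivity
    calc C * ∫ x, ‖V x‖ ^ (1 + γ) ≤ |C| * ∫ x, ‖V x‖ ^ (1 + γ) :=
          mul_le_mul_of_nonneg_right (le_abs_self C) h3
      _ ≤ |C| * Kc (1 + γ) := mul_le_mul_of_nonneg_left hV2 (abs_nonneg C)
  -- lower bound
  set c : ℝ := (1 / (2 * (N : ℝ) ^ 202)) ^ (2 * γ) with hc
  have hc0 : 0 ≤ c := by positivity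
  have hmem : ∀ s ∈ S, ¬ (0 ≤ (-s ^ 2).re ∧ (-s ^ 2).im = 0) := by
    intro s hs
    obtain ⟨-, h4, h5, -⟩ := hSs s hs
    rintro ⟨h6, h7⟩
    have e1 : (-s ^ 2).re = -(s.re ^ 2 - s.im ^ 2) := by
      simp [pow_two]
    have e2 : (-s ^ 2).im = -(2 * s.re * s.im) := by
      simp [pow_two]; ring
    rw [e1] at h6
    rw [e2] at h7
    have h8 : s.im = 0 := by
      have h9 : s.re * s.im = 0 := by linarith
      rcases mul_eq_zero.1 h9 with h10 | h10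
      · linarith
      · exact h10
    rw [h8] at h6
    nlinarith
  set S' : Finset {E : ℂ // ¬ (0 ≤ E.re ∧ E.im = 0)} :=
    S.attach.image (fun s : {x // x ∈ S} => ⟨-(s.1 : ℂ) ^ 2, hmem s.1 s.2⟩) with hS'
  have hcard : S'.card = S.card := by
    rw [hS', Finset.card_image_of_injective, Finset.card_attach]
    intro s t hst
    have h3 : -(s : ℂ) ^ 2 = -(t : ℂ) ^ 2 := congrArg Subtype.val hst
    have h4 : ((s : ℂ) - t) * ((s : ℂ) + t) = 0 := by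
      have : (s : ℂ) ^ 2 = (t : ℂ) ^ 2 := neg_injective h3
      linear_combination this
    rcases mul_eq_zero.1 h4 with h5 | h5
    · exact Subtype.ext (sub_eq_zero.1 h5)
    · exfalso
      have h6 := (hSs s s.2).2.1
      have h7 := (hSs t t.2).2.1
      have h8 := congrArg Complex.re h5
      simp only [Complex.add_re, Complex.zero_re] at h8
      linarith
  have hterm : ∀ E ∈ S', ENNReal.ofReal c ≤ (algMult 1 V (E : ℂ) : ℝ≥0∞) *
      ENNReal.ofReal (‖(E : ℂ)‖ ^ (-σ') * distPos (E : ℂ) ^ (γ + σ')) := by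
    intro E hE
    rw [hS', Finset.mem_image] at hE
    obtain ⟨s, -, rfl⟩ := hE
    obtain ⟨h3, h4, h5, u, hu, hg⟩ := hSs s s.2
    have h6 : 1 ≤ algMult 1 V (-(s : ℂ) ^ 2) := one_le_algMult hu hg
    have h7 : (1 : ℝ≥0∞) ≤ (algMult 1 V (-(s : ℂ) ^ 2) : ℝ≥0∞) := by
      have := ENat.toENNReal_le.2 h6
      simpa using this
    have hre : (-(s : ℂ) ^ 2).re ≤ 0 := by
      have e1 : (-(s : ℂ) ^ 2).re = -((s : ℂ).re ^ 2 - (s : ℂ).im ^ 2) := by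
        simp [pow_two]
      rw [e1]
      have := abs_le.1 h5
      nlinarith
    have hs0 : 0 < ‖(s : ℂ)‖ := lt_of_lt_of_le (by positivity) h3
    have h8 : ‖(-(s : ℂ) ^ 2)‖ = ‖(s : ℂ)‖ ^ (2 : ℝ) := by
      rw [norm_neg, norm_pow]; norm_cast
    have h9 : ‖(-(s : ℂ) ^ 2)‖ ^ (-σ') * distPos (-(s : ℂ) ^ 2) ^ (γ + σ') =
        ‖(s : ℂ)‖ ^ (2 * γ) := by
      rw [distPos_eq hre, h8, ← Real.rpow_mul hs0.le, ← Real.rpow_mul hs0.le,
        ← Real.rpow_add hs0]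
      congr 1; ring
    show ENNReal.ofReal c ≤ (algMult 1 V (-(s : ℂ) ^ 2) : ℝ≥0∞) *
      ENNReal.ofReal (‖(-(s : ℂ) ^ 2)‖ ^ (-σ') * distPos (-(s : ℂ) ^ 2) ^ (γ + σ'))
    rw [h9]
    calc ENNReal.ofReal c ≤ ENNReal.ofReal (‖(s : ℂ)‖ ^ (2 * γ)) :=
          ENNReal.ofReal_le_ofReal (Real.rpow_le_rpow (by positivity) h3 (by positivity))
      _ = 1 * ENNReal.ofReal (‖(s : ℂ)‖ ^ (2 * γ)) := (one_mul _).symm
      _ ≤ _ := by gcongr
  have h3 : ENNReal.ofReal ((N : ℝ) / 100 * c) ≤ ENNReal.ofReal K := by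
    calc ENNReal.ofReal ((N : ℝ) / 100 * c) ≤ ENNReal.ofReal (S'.card * c) := by
          refine ENNReal.ofReal_le_ofReal ?_
          rw [hcard]
          exact mul_le_mul_of_nonneg_right hS hc0
      _ = ∑ _E ∈ S', ENNReal.ofReal c := by
          rw [Finset.sum_const, nsmul_eq_mul, ENNReal.ofReal_mul (Nat.cast_nonneg _),
            ENNReal.ofReal_natCast]
      _ ≤ ∑ E ∈ S', (algMult 1 V (E : ℂ) : ℝ≥0∞) *
            ENNReal.ofReal (‖(E : ℂ)‖ ^ (-σ') * distPos (E : ℂ) ^ (γ + σ')) :=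
          Finset.sum_le_sum hterm
      _ ≤ ∑' E : {E : ℂ // ¬ (0 ≤ E.re ∧ E.im = 0)}, (algMult 1 V (E : ℂ) : ℝ≥0∞) *
            ENNReal.ofReal (‖(E : ℂ)‖ ^ (-σ') * distPos (E : ℂ) ^ (γ + σ')) :=
          ENNReal.sum_le_tsum S'
      _ ≤ _ := h1
      _ ≤ _ := h2
  have hKc : 0 ≤ Kc (1 + γ) := integral_nonneg fun x => by positivity
  have hK0 : 0 ≤ K := mul_nonneg (abs_nonneg C) hKc
  have h4 := (ENNReal.ofReal_le_ofReal_iff hK0).1 h3
  exact absurd hN (not_lt.2 h4)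

end Pool.Agent.Helper50.CLTd
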