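import Pool.Agent.Helper98.CLTd.Radial

/-! # (P1): passage from a distributional equation to the form graph, by Fourier transform -/

namespace Pool.Agent.Helper50.CLTd

open MeasureTheory SchwartzMap FourierTransform LineDeriv
open scoped ComplexConjugate SchwartzMap ENNReal
open Pool.Agent.Helper98.CLTd

variable {d : ℕ}

lemma integral_mul_fourier (u : L2d d) (ψ : 𝓢(EuclideanSpace ℝ (Fin d), ℂ)) :
    ∫ x, u x * (𝓕 ψ) x = ∫ ξ, (𝓕 u : L2d d) ξ * ψ ξ := by
  have h := congrArg (fun T => T ψ) (Lp.fourier_toTemperedDistribution_eq u)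
  simp only [TemperedDistribution.fourier_apply, Lp.toTemperedDistribution_apply, smul_eq_mul] at h
  calc ∫ x, u x * (𝓕 ψ) x = ∫ x, (𝓕 ψ) x * u x := by
        congr 1; ext x; ring
    _ = _ := h
    _ = _ := by congr 1; ext x; ring

/-- the `i`-th basis vector -/
noncomputable abbrev ee (i : Fin d) : EuclideanSpace ℝ (Fin d) := EuclideanSpace.single i 1

/-- multiplication of a Schwartz function by `-2πi ξ_i`. -/
noncomputable def mulXi (i : Fin d) (ψ : 𝓢(EuclideanSpace ℝ (Fin d), ℂ)) :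
    𝓢(EuclideanSpace ℝ (Fin d), ℂ) :=
  -(2 * Real.pi * Complex.I) •
    smulLeftCLM ℂ (fun ξ : EuclideanSpace ℝ (Fin d) => inner ℝ ξ (ee i)) ψ

lemma mulXi_apply (i : Fin d) (ψ : 𝓢(EuclideanSpace ℝ (Fin d), ℂ))
    (ξ : EuclideanSpace ℝ (Fin d)) :
    mulXi i ψ ξ = -(2 * Real.pi * Complex.I * ξ i) * ψ ξ := by
  have h : (fun ξ : EuclideanSpace ℝ (Fin d) => inner ℝ ξ (ee i)).HasTemperateGrowth := by
    fun_prop
  have h1 : inner ℝ ξ (ee i) = ξ i := by
    simp [ee, EuclideanSpace.inner_single_right]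
  simp only [mulXi, smul_apply, smulLeftCLM_apply_apply h, h1]
  simp
  ring

lemma fderiv_fourier_schwartz (i : Fin d) (ψ : 𝓢(EuclideanSpace ℝ (Fin d), ℂ))
    (x : EuclideanSpace ℝ (Fin d)) :
    fderiv ℝ (𝓕 ψ : 𝓢(EuclideanSpace ℝ (Fin d), ℂ)) x (ee i) =
      (𝓕 (mulXi i ψ) : 𝓢(EuclideanSpace ℝ (Fin d), ℂ)) x := by
  have h := lineDerivOp_fourier_eq ψ (ee i)
  have h2 := congrArg (fun T : 𝓢(EuclideanSpace ℝ (Fin d), ℂ) => T x) h
  simp only [lineDerivOp_apply_eq_fderiv] at h2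
  rw [mulXi, ← h2]

lemma l2_mul_integrable (f : L2d d) (ψ : 𝓢(EuclideanSpace ℝ (Fin d), ℂ)) :
    Integrable (fun ξ => f ξ * ψ ξ) volume :=
  MemLp.integrable_mul (Lp.memLp f) (ψ.memLp 2 volume)

lemma ae_eq_of_schwartz {f g : EuclideanSpace ℝ (Fin d) → ℂ} (hf : LocallyIntegrable f volume)
    (hg : LocallyIntegrable g volume)
    (key : ∀ ψ : 𝓢(EuclideanSpace ℝ (Fin d), ℂ), ∫ ξ, f ξ * ψ ξ = ∫ ξ, g ξ * ψ ξ) :
    f =ᵐ[volume] g := by
  apply ae_eq_of_integral_contDiff_smul_eq hf hg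
  intro h hh hhc
  have hg₁ : HasCompactSupport (Complex.ofRealCLM ∘ h) := hhc.comp_left rfl
  have hg₂ : ContDiff ℝ (⊤ : ℕ∞) (Complex.ofRealCLM ∘ h) := by
    exact Complex.ofRealCLM.contDiff.comp hh
  have := key (hg₁.toSchwartzMap hg₂)
  simp only [HasCompactSupport.toSchwartzMap_toFun, Function.comp] at this
  calc ∫ x, h x • f x = ∫ ξ, f ξ * (Complex.ofRealCLM (h ξ)) := by
        congr 1; ext ξ; simp [mul_comm]
    _ = _ := this
    _ = _ := by congr 1; ext ξ; simp [mul_comm]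

lemma locInt_L2 (u : L2d d) : LocallyIntegrable (fun ξ => u ξ) volume :=
  (Lp.memLp u).locallyIntegrable (by norm_num)

lemma locInt_mul (u : L2d d) {c : EuclideanSpace ℝ (Fin d) → ℂ} (hc : Continuous c) :
    LocallyIntegrable (fun ξ => c ξ * u ξ) volume := by
  have hloc0 := locInt_L2 u
  rw [MeasureTheory.locallyIntegrable_iff] at hloc0 ⊢
  intro K hK
  exact (hloc0 K hK).continuousOn_mul hc.continuousOn hK

theorem isWeakPartial_iff_fourier (i : Fin d) (u v : L2d d) :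
    IsWeakPartial i u v ↔
      (fun ξ => (𝓕 v : L2d d) ξ) =ᵐ[volume]
        fun ξ => (2 * Real.pi * Complex.I * ξ i) * (𝓕 u : L2d d) ξ := by
  constructor
  · intro h
    refine ae_eq_of_schwartz (locInt_L2 _) (locInt_mul _ (by fun_prop)) ?_
    intro ψ
    have h1 := h (𝓕 ψ)
    simp_rw [fderiv_fourier_schwartz] at h1
    rw [integral_mul_fourier, integral_mul_fourier] at h1
    have h2 : ∫ ξ, (𝓕 u : L2d d) ξ * mulXi i ψ ξ
        = - ∫ ξ, (2 * Real.pi * Complex.I * ξ i) * (𝓕 u : L2d d) ξ * ψ ξ := by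
      rw [← integral_neg]
      congr 1; ext ξ
      rw [mulXi_apply]; ring
    rw [h2] at h1
    exact (neg_injective h1).symm
  · intro h φ
    have hφ : φ = 𝓕 (𝓕⁻ φ) := (fourier_fourierInv_eq φ).symm
    set ψ : 𝓢(EuclideanSpace ℝ (Fin d), ℂ) := 𝓕⁻ φ with hψ
    rw [hφ]
    simp_rw [fderiv_fourier_schwartz]
    rw [integral_mul_fourier, integral_mul_fourier, ← integral_neg]
    apply integral_congr_ae
    filter_upwards [h] with ξ hξ
    rw [hξ, mulXi_apply]; ring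

/-- Plancherel's identity in integral form. -/
lemma integral_mul_conj (f g : L2d d) :
    ∫ x, f x * conj (g x) = ∫ ξ, (𝓕 f : L2d d) ξ * conj ((𝓕 g : L2d d) ξ) := by
  have h : inner ℂ (𝓕 g : L2d d) (𝓕 f : L2d d) = inner ℂ g f := Lp.inner_fourier_eq g f
  rw [L2.inner_def, L2.inner_def] at h
  simp only [RCLike.inner_apply] at h
  exact h.symm

/-- the second derivative of a Fourier transform -/
lemma fderiv2_fourier_schwartz (i : Fin d) (ψ : 𝓢(EuclideanSpace ℝ (Fin d), ℂ))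
    (x : EuclideanSpace ℝ (Fin d)) :
    fderiv ℝ (fun y => fderiv ℝ (𝓕 ψ : 𝓢(EuclideanSpace ℝ (Fin d), ℂ)) y (ee i)) x (ee i) =
      (𝓕 (mulXi i (mulXi i ψ)) : 𝓢(EuclideanSpace ℝ (Fin d), ℂ)) x := by
  rw [← fderiv_fourier_schwartz]
  congr 2
  funext y
  exact fderiv_fourier_schwartz i ψ y

/-- the distributional Laplacian, on the Fourier side -/
lemma laplace_fourier (u w : L2d d)
    (h : ∀ φ : 𝓢(EuclideanSpace ℝ (Fin d), ℂ),
      ∫ x, w x * φ x
        = ∫ x, u x * ∑ i : Fin d, fderiv ℝ (fun y => fderiv ℝ φ y (EuclideanSpace.single i 1)) x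
            (EuclideanSpace.single i 1)) :
    (fun ξ => (𝓕 w : L2d d) ξ) =ᵐ[volume]
      fun ξ => (∑ i : Fin d, (2 * Real.pi * Complex.I * ξ i) ^ 2) * (𝓕 u : L2d d) ξ := by
  refine ae_eq_of_schwartz (locInt_L2 _) (locInt_mul _ (by fun_prop)) ?_
  intro ψ
  have h1 := h (𝓕 ψ)
  simp_rw [fderiv2_fourier_schwartz] at h1
  rw [integral_mul_fourier] at h1
  rw [h1]
  have h2 : ∀ x, ∑ i : Fin d, (𝓕 (mulXi i (mulXi i ψ)) : 𝓢(EuclideanSpace ℝ (Fin d), ℂ)) x =
      (𝓕 (∑ i : Fin d, mulXi i (mulXi i ψ)) : 𝓢(EuclideanSpace ℝ (Fin d), ℂ)) x := by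
    intro x
    have h3 : (𝓕 (∑ i : Fin d, mulXi i (mulXi i ψ)) : 𝓢(EuclideanSpace ℝ (Fin d), ℂ)) =
        ∑ i : Fin d, 𝓕 (mulXi i (mulXi i ψ)) :=
      map_sum (fourierCLM ℂ 𝓢(EuclideanSpace ℝ (Fin d), ℂ)) _ _
    rw [h3, sum_apply]
  simp_rw [h2]
  rw [integral_mul_fourier]
  congr 1
  ext ξ
  rw [sum_apply]
  simp_rw [mulXi_apply]
  rw [Finset.sum_mul, Finset.mul_sum, Finset.sum_mul]
  refine Finset.sum_congr rfl fun i _ => ?_
  ring

/-- The Fourier multiplier `2πi ξ_i` applied to `u`, when the result is square integrable. -/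
lemma exists_weakPartial (u w : L2d d)
    (h : (fun ξ => (𝓕 w : L2d d) ξ) =ᵐ[volume]
      fun ξ => (∑ i : Fin d, (2 * Real.pi * Complex.I * ξ i) ^ 2) * (𝓕 u : L2d d) ξ)
    (i : Fin d) : ∃ v : L2d d, IsWeakPartial i u v := by
  have hm : MemLp (fun ξ => (2 * Real.pi * Complex.I * ξ i) * (𝓕 u : L2d d) ξ) 2 volume := by
    have h1 : MemLp (fun ξ => ‖(𝓕 u : L2d d) ξ‖ + ‖(𝓕 w : L2d d) ξ‖) 2 volume :=
      (Lp.memLp (𝓕 u : L2d d)).norm.add (Lp.memLp (𝓕 w : L2d d)).norm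
    refine h1.of_le ?_ ?_
    · refine AEStronglyMeasurable.mul ?_ (Lp.memLp (𝓕 u : L2d d)).1
      exact Continuous.aestronglyMeasurable (by fun_prop)
    · filter_upwards [h] with ξ hξ
      rw [hξ, Real.norm_of_nonneg (by positivity)]
      have e1 : (∑ j : Fin d, (2 * (Real.pi : ℂ) * Complex.I * ξ j) ^ 2) =
          ((-(∑ j : Fin d, (2 * Real.pi * ξ j) ^ 2) : ℝ) : ℂ) := by
        push_cast
        rw [← Finset.sum_neg_distrib]
        refine Finset.sum_congr rfl fun j _ => ?_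
        linear_combination (2 * (Real.pi : ℂ) * ξ j) ^ 2 * Complex.I_sq
      have e2 : ‖(2 * (Real.pi : ℂ) * Complex.I * ξ i)‖ = |2 * Real.pi * ξ i| := by
        simp [abs_mul]
      have e3 : (2 * Real.pi * ξ i) ^ 2 ≤ ∑ j : Fin d, (2 * Real.pi * ξ j) ^ 2 :=
        Finset.single_le_sum (f := fun j => (2 * Real.pi * ξ j) ^ 2)
          (fun j _ => sq_nonneg _) (Finset.mem_univ i)
      rw [norm_mul, e2, e1, norm_mul, Complex.norm_real, norm_neg, Real.norm_of_nonneg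
        (Finset.sum_nonneg fun j _ => sq_nonneg _)]
      have e4 : |2 * Real.pi * ξ i| ≤ 1 + ∑ j : Fin d, (2 * Real.pi * ξ j) ^ 2 := by
        have e5 := sq_abs (2 * Real.pi * ξ i)
        nlinarith [sq_nonneg (|2 * Real.pi * ξ i| - 1), abs_nonneg (2 * Real.pi * ξ i)]
      calc |2 * Real.pi * ξ i| * ‖(𝓕 u : L2d d) ξ‖
          ≤ (1 + ∑ j : Fin d, (2 * Real.pi * ξ j) ^ 2) * ‖(𝓕 u : L2d d) ξ‖ :=
            mul_le_mul_of_nonneg_right e4 (norm_nonneg _)
        _ = _ := by ring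
  refine ⟨𝓕⁻ (hm.toLp _), ?_⟩
  rw [isWeakPartial_iff_fourier]
  have h2 : (𝓕 (𝓕⁻ (hm.toLp _)) : L2d d) = hm.toLp _ := fourier_fourierInv_eq _
  rw [h2]
  exact hm.coeFn_toLp

/-- (P1) -/
theorem hgraph_of_distrib (V : EuclideanSpace ℝ (Fin d) → ℂ) (hV : Measurable V)
    (C : ℝ) (hC : ∀ x, ‖V x‖ ≤ C) (u g : L2d d)
    (h : ∀ φ : 𝓢(EuclideanSpace ℝ (Fin d), ℂ),
      ∫ x, (V x * u x - g x) * φ x
        = ∫ x, u x * ∑ i : Fin d, fderiv ℝ (fun y => fderiv ℝ φ y (EuclideanSpace.single i 1)) x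
            (EuclideanSpace.single i 1)) :
    HGraph 1 V u g := by
  have hVu : MemLp (fun x => V x * u x) 2 volume := by
    have h1 : MemLp V ∞ volume := memLp_top_of_bound hV.aestronglyMeasurable C (by
      filter_upwards with x using hC x)
    exact MemLp.mul (p := ∞) (q := 2) (r := 2) (Lp.memLp u) h1
  have hwm : MemLp (fun x => V x * u x - g x) 2 volume := hVu.sub (Lp.memLp g)
  set w : L2d d := hwm.toLp _ with hw
  have hwae : ∀ᵐ x, w x = V x * u x - g x := hwm.coeFn_toLp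
  have hF := laplace_fourier u w (fun φ => by
    rw [← h φ]
    apply integral_congr_ae
    filter_upwards [hwae] with x hx
    rw [hx])
  choose u' hu' using exists_weakPartial u w hF
  refine ⟨u', hu', ?_⟩
  intro φ φ' hφ
  have hint : Integrable (fun x => V x * u x * conj (φ x)) volume := by
    have h2 : MemLp (fun ξ => conj (φ ξ)) 2 volume := by
      refine (Lp.memLp φ).of_le ?_ ?_
      · exact Complex.continuous_conj.comp_aestronglyMeasurable (Lp.memLp φ).1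
      · filter_upwards with ξ; simp
    exact MemLp.integrable_mul hVu h2
  refine ⟨hint, ?_⟩
  have e1 : ∀ i, ∫ x, u' i x * conj (φ' i x) =
      ∫ ξ, (𝓕 (u' i) : L2d d) ξ * conj ((𝓕 (φ' i) : L2d d) ξ) := fun i =>
    integral_mul_conj _ _
  have e2 : (∑ i, ∫ x, u' i x * conj (φ' i x)) = - ∫ x, w x * conj (φ x) := by
    simp_rw [e1]
    rw [← integral_finsetSum _ (fun i _ => int_mul_conj _ _), integral_mul_conj w φ,
      ← integral_neg]
    apply integral_congr_ae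
    have hall : ∀ᵐ ξ, ∀ i, (𝓕 (u' i) : L2d d) ξ =
        (2 * Real.pi * Complex.I * ξ i) * (𝓕 u : L2d d) ξ ∧
        (𝓕 (φ' i) : L2d d) ξ = (2 * Real.pi * Complex.I * ξ i) * (𝓕 φ : L2d d) ξ := by
      rw [ae_all_iff]
      intro i
      filter_upwards [(isWeakPartial_iff_fourier i _ _).1 (hu' i),
        (isWeakPartial_iff_fourier i _ _).1 (hφ i)] with ξ h1 h2
      exact ⟨h1, h2⟩
    filter_upwards [hall, hF] with ξ h1 h2
    rw [h2, Finset.sum_mul, Finset.sum_mul, ← Finset.sum_neg_distrib]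
    refine Finset.sum_congr rfl fun i _ => ?_
    rw [(h1 i).1, (h1 i).2]
    simp only [map_mul, Complex.conj_I, Complex.conj_ofReal, map_ofNat]
    ring
  have e3 : ∫ x, w x * conj (φ x) = (∫ x, V x * u x * conj (φ x)) - ∫ x, g x * conj (φ x) := by
    rw [← integral_sub hint (int_mul_conj _ _)]
    apply integral_congr_ae
    filter_upwards [hwae] with x hx
    rw [hx]; ring
  rw [e2, e3]
  push_cast
  ring

end Pool.Agent.Helper50.CLTd
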